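import Mathlib

/-!
# Cyclic covers of a torus surface, for all degrees at once

Let `f` be a Laurent polynomial in two variables whose support is the finite set `A`, with `(0, 0) ∈ A`, let `P` be
its Newton polygon and let `X` be the surface `z ^ m = f(x, y)`. For `f` nondegenerate the eigenspace of
`z ↦ ζ z` with eigenvalue `ζ ^ (-k)`, `0 < k < m`, in `H^{2,0}` of a smooth compactification of `X` has the basis
`x ^ i y ^ j z ^ (-k) dx/x dy/y`, where `(i, j)` runs over the lattice points in the interior of `(k / m) P`.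

`allM`: the pieces are chiral for all `m` if and only if no point of `2ℤ²` lies in the interior of `P`, and these
polygons are exactly the ones which an affine map of `ℤ²` with even translation part puts inside the strip
`0 ≤ j ≤ 2`, one of the triangles `T4`, `T6`, `T8`, or the square `Dm`.
-/

set_option autoImplicit false

namespace Pool.Agent.AllM

open Pointwise

/-! ## Definitions -/

/-- The Newton polygon of a Laurent polynomial with support `A`. -/
def newton (A : Finset (ℤ × ℤ)) : Set (ℝ × ℝ) :=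
  convexHull ℝ ((fun a : ℤ × ℤ => ((a.1 : ℝ), (a.2 : ℝ))) '' (A : Set (ℤ × ℤ)))

/-- The lattice points in the interior of `k / m` times the Newton polygon. -/
def forms (A : Finset (ℤ × ℤ)) (m k : ℕ) : Set (ℤ × ℤ) :=
  {a | ((a.1 : ℝ), (a.2 : ℝ)) ∈ interior (((k : ℝ) / m) • newton A)}

/-- Their number, the Hodge number `h^(2,0)` of the piece `k` of `z ^ m = f`. -/
noncomputable def h20 (A : Finset (ℤ × ℤ)) (m k : ℕ) : ℕ∞ := (forms A m k).encard

/-- Of two conjugate pieces one has `h^(2,0) = 0`; the piece of order two has `h^(2,0) ≤ 1`. -/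
def IsChiral (A : Finset (ℤ × ℤ)) (m : ℕ) : Prop :=
  ∀ k l : ℕ, 0 < k → 0 < l → k + l = m →
    (k = l → h20 A m k ≤ 1) ∧ (k ≠ l → h20 A m k = 0 ∨ h20 A m l = 0)

/-- No point of `2ℤ²` lies in the interior of the Newton polygon. -/
def NoEvenPoint (A : Finset (ℤ × ℤ)) : Prop :=
  ∀ i j : ℤ, ((2 * i : ℝ), (2 * j : ℝ)) ∉ interior (newton A)

/-- Affine maps `ℤ² → ℤ²` with determinant `±1` and even translation part. -/
def IsEquiv (g : ℤ × ℤ → ℤ × ℤ) : Prop :=
  ∃ p q r s u v : ℤ, (p * s - q * r) ^ 2 = 1 ∧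
    ∀ a, g a = (p * a.1 + q * a.2 + 2 * u, r * a.1 + s * a.2 + 2 * v)

/-- The strip `0 ≤ j ≤ 2`. -/
def Strip (a : ℤ × ℤ) : Prop := 0 ≤ a.2 ∧ a.2 ≤ 2

/-- The triangle with vertices `(0, 0), (4, 0), (0, 4)`. -/
def T4 (a : ℤ × ℤ) : Prop := 0 ≤ a.1 ∧ 0 ≤ a.2 ∧ a.1 + a.2 ≤ 4

/-- The triangle with vertices `(0, 0), (6, 0), (0, 3)`. -/
def T6 (a : ℤ × ℤ) : Prop := 0 ≤ a.1 ∧ 0 ≤ a.2 ∧ a.1 + 2 * a.2 ≤ 6

/-- The triangle with vertices `(0, -1), (0, 3), (4, 1)`. -/
def T8 (a : ℤ × ℤ) : Prop := 0 ≤ a.1 ∧ a.1 + 2 * a.2 ≤ 6 ∧ a.1 - 2 * a.2 ≤ 2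

/-- The square with vertices `(-1, 1), (1, -1), (3, 1), (1, 3)`. -/
def Dm (a : ℤ × ℤ) : Prop := |a.1 - 1| + |a.2 - 1| ≤ 2

/-- The support is in the strip, a triangle or the square, up to an affine map with even translation part. -/
def InList (A : Finset (ℤ × ℤ)) : Prop :=
  ∃ g, IsEquiv g ∧ ((∀ a ∈ A, Strip (g a)) ∨ (∀ a ∈ A, T4 (g a)) ∨ (∀ a ∈ A, T6 (g a)) ∨
    (∀ a ∈ A, T8 (g a)) ∨ ∀ a ∈ A, Dm (g a))

/-! ## The classification -/

/-- Every point of `2ℤ²` is separated from `A` by a line. -/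
def NoEven (A : Finset (ℤ × ℤ)) : Prop :=
  ∀ m n : ℤ, ∃ α β : ℝ, (α ≠ 0 ∨ β ≠ 0) ∧
    ∀ a ∈ A, α * ((a.1 : ℝ) - 2 * m) + β * ((a.2 : ℝ) - 2 * n) ≤ 0

lemma IsEquiv.comp {g h : ℤ × ℤ → ℤ × ℤ} (hg : IsEquiv g) (hh : IsEquiv h) : IsEquiv (g ∘ h) := by
  obtain ⟨p, q, r, s, u, v, hd, hg⟩ := hg
  obtain ⟨p', q', r', s', u', v', hd', hh⟩ := hh
  refine ⟨p * p' + q * r', p * q' + q * s', r * p' + s * r', r * q' + s * s',
    p * u' + q * v' + u, r * u' + s * v' + v, ?_, fun a => ?_⟩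
  · have : (p * p' + q * r') * (r * q' + s * s') - (p * q' + q * s') * (r * p' + s * r') =
        (p * s - q * r) * (p' * s' - q' * r') := by ring
    rw [this, mul_pow, hd, hd', one_mul]
  · simp only [Function.comp_apply, hh, hg]
    ext <;> simp only <;> ring

lemma IsEquiv.id : IsEquiv fun a => a :=
  ⟨1, 0, 0, 1, 0, 0, by norm_num, fun a => by ext <;> simp⟩

lemma NoEven.image {A : Finset (ℤ × ℤ)} (hA : NoEven A) {g : ℤ × ℤ → ℤ × ℤ} (hg : IsEquiv g) :
    NoEven (A.image g) := by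
  classical
  obtain ⟨p, q, r, s, u, v, hd, hg⟩ := hg
  intro m n
  set e : ℤ := p * s - q * r with he
  have hee : e * e = 1 := by rw [← hd, sq]
  obtain ⟨α, β, hne, hab⟩ := hA (e * (s * (m - u) - q * (n - v))) (e * (-r * (m - u) + p * (n - v)))
  have heR : (e : ℝ) * e = 1 := by exact_mod_cast hee
  have heR' : (e : ℝ) = p * s - q * r := by rw [he]; push_cast; ring
  refine ⟨e * (α * s - β * r), e * (-α * q + β * p), ?_, ?_⟩
  · by_contra hcon
    rw [not_or, not_not, not_not] at hcon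
    obtain ⟨h1, h2⟩ := hcon
    have he0 : (e : ℝ) ≠ 0 := by
      intro h
      rw [h] at heR
      norm_num at heR
    have h3 : α * s - β * r = 0 := by
      rcases mul_eq_zero.mp h1 with h | h
      · exact absurd h he0
      · exact h
    have h4 : -α * q + β * p = 0 := by
      rcases mul_eq_zero.mp h2 with h | h
      · exact absurd h he0
      · exact h
    have h5 : α * e = 0 := by
      rw [heR']
      linear_combination p * h3 + r * h4
    have h6 : β * e = 0 := by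
      rw [heR']
      linear_combination q * h3 + s * h4
    rcases hne with h | h
    · exact h (by rcases mul_eq_zero.mp h5 with h' | h' <;> [exact h'; exact absurd h' he0])
    · exact h (by rcases mul_eq_zero.mp h6 with h' | h' <;> [exact h'; exact absurd h' he0])
  · intro b hb
    rw [Finset.mem_image] at hb
    obtain ⟨a, ha, rfl⟩ := hb
    have h1 := hab a ha
    rw [hg a]
    push_cast
    push_cast at h1
    have h2 : e * (α * s - β * r) * (p * a.1 + q * a.2 + 2 * u - 2 * m) +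
        e * (-α * q + β * p) * (r * a.1 + s * a.2 + 2 * v - 2 * n) =
        α * (a.1 - 2 * (e * (s * (m - u) - q * (n - v)))) +
        β * (a.2 - 2 * (e * (-r * (m - u) + p * (n - v)))) := by
      have h3 : (e : ℝ) * ((p : ℝ) * s - q * r) = 1 := by rw [← heR', heR]
      linear_combination (α * a.1 + β * a.2) * h3
    rw [h2]
    exact h1

lemma InList.of_image {A : Finset (ℤ × ℤ)} {g : ℤ × ℤ → ℤ × ℤ} (hg : IsEquiv g)
    (h : InList (A.image g)) : InList A := by
  classical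
  obtain ⟨k, hk, h⟩ := h
  refine ⟨k ∘ g, hk.comp hg, ?_⟩
  have key : ∀ P : ℤ × ℤ → Prop, (∀ a ∈ A.image g, P (k a)) → ∀ a ∈ A, P ((k ∘ g) a) :=
    fun P hP a ha => hP _ (Finset.mem_image_of_mem g ha)
  rcases h with h | h | h | h | h
  · exact Or.inl (key _ h)
  · exact Or.inr (Or.inl (key _ h))
  · exact Or.inr (Or.inr (Or.inl (key _ h)))
  · exact Or.inr (Or.inr (Or.inr (Or.inl (key _ h))))
  · exact Or.inr (Or.inr (Or.inr (Or.inr (key _ h))))

/-- The section at an even level lies between two consecutive even numbers. -/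
lemma section_gap {A : Finset (ℤ × ℤ)} (hA : NoEven A) (n : ℤ) {b t : ℤ × ℤ} (hb : b ∈ A)
    (ht : t ∈ A) (hb2 : b.2 < 2 * n) (ht2 : 2 * n < t.2) :
    ∃ (k : ℤ) (c d : ℝ), ∀ a ∈ A, 2 * (k : ℝ) + c * ((a.2 : ℝ) - 2 * n) ≤ a.1 ∧
      (a.1 : ℝ) ≤ 2 * k + 2 + d * ((a.2 : ℝ) - 2 * n) := by
  set L : ℤ → Prop := fun k => ∃ c : ℝ, ∀ a ∈ A, 2 * (k : ℝ) + c * ((a.2 : ℝ) - 2 * n) ≤ a.1 with hL
  set R : ℤ → Prop := fun k => ∃ d : ℝ, ∀ a ∈ A, (a.1 : ℝ) ≤ 2 * k + d * ((a.2 : ℝ) - 2 * n) with hR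
  have hb2' : (b.2 : ℝ) - 2 * n < 0 := by
    have : (b.2 : ℝ) < 2 * n := by exact_mod_cast hb2
    linarith
  have ht2' : 0 < (t.2 : ℝ) - 2 * n := by
    have : (2 * n : ℝ) < t.2 := by exact_mod_cast ht2
    linarith
  have hor : ∀ k, L k ∨ R k := by
    intro k
    obtain ⟨α, β, hne, hab⟩ := hA k n
    have hα : α ≠ 0 := by
      rintro rfl
      have h1 := hab b hb
      have h2 := hab t ht
      rcases hne with h | h
      · exact h rfl
      · rcases lt_or_gt_of_ne h with h | h <;> nlinarith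
    rcases lt_or_gt_of_ne hα with h | h
    · left
      refine ⟨-β / α, fun a ha => ?_⟩
      have h1 := hab a ha
      have h2 : 2 * (k : ℝ) + -β / α * ((a.2 : ℝ) - 2 * n) - a.1 =
          -((α * ((a.1 : ℝ) - 2 * k) + β * ((a.2 : ℝ) - 2 * n)) / α) := by
        field_simp
        ring
      have h3 : 0 ≤ (α * ((a.1 : ℝ) - 2 * k) + β * ((a.2 : ℝ) - 2 * n)) / α :=
        div_nonneg_of_nonpos h1 h.le
      linarith
    · right
      refine ⟨-β / α, fun a ha => ?_⟩
      have h1 := hab a ha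
      have h2 : 2 * (k : ℝ) + -β / α * ((a.2 : ℝ) - 2 * n) - a.1 =
          -((α * ((a.1 : ℝ) - 2 * k) + β * ((a.2 : ℝ) - 2 * n)) / α) := by
        field_simp
        ring
      have h3 : (α * ((a.1 : ℝ) - 2 * k) + β * ((a.2 : ℝ) - 2 * n)) / α ≤ 0 :=
        div_nonpos_of_nonpos_of_nonneg h1 h.le
      linarith
  -- crossing point of the segment from `b` to `t`
  set D : ℝ := (t.2 : ℝ) - b.2 with hD
  have hD0 : 0 < D := by rw [hD]; linarith
  set X : ℝ := ((b.1 : ℝ) * ((t.2 : ℝ) - 2 * n) + t.1 * (2 * n - (b.2 : ℝ))) with hX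
  have hLX : ∀ k, L k → 2 * k * D ≤ X := by
    rintro k ⟨c, hc⟩
    have h1 := mul_le_mul_of_nonneg_right (hc b hb) ht2'.le
    have h2 := mul_le_mul_of_nonneg_right (hc t ht) (by linarith : (0 : ℝ) ≤ 2 * n - (b.2 : ℝ))
    rw [hX, hD]
    nlinarith
  have hRX : ∀ k, R k → X ≤ 2 * k * D := by
    rintro k ⟨d, hd⟩
    have h1 := mul_le_mul_of_nonneg_right (hd b hb) ht2'.le
    have h2 := mul_le_mul_of_nonneg_right (hd t ht) (by linarith : (0 : ℝ) ≤ 2 * n - (b.2 : ℝ))
    rw [hX, hD]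
    nlinarith
  by_contra hcon
  push Not at hcon
  have hstep : ∀ k, L k → L (k + 1) := by
    rintro k ⟨c, hc⟩
    rcases hor (k + 1) with h | ⟨d, hd⟩
    · exact h
    · exfalso
      obtain ⟨a, ha, h⟩ := hcon k c d
      have h1 := h (hc a ha)
      have h2 := hd a ha
      push_cast at h2
      linarith
  obtain ⟨N, hN⟩ := exists_nat_gt (|X| / (2 * D))
  have hN' : |X| < 2 * N * D := by
    rw [div_lt_iff₀ (by positivity)] at hN
    linarith
  have hneg : L (-(N : ℤ)) := by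
    rcases hor (-(N : ℤ)) with h | h
    · exact h
    · exfalso
      have h1 := hRX _ h
      push_cast at h1
      have h2 := neg_abs_le X
      linarith
  have hall : ∀ j : ℕ, L (-(N : ℤ) + j) := by
    intro j
    induction j with
    | zero => simpa using hneg
    | succ j ih =>
      have := hstep _ ih
      rwa [Nat.cast_succ, ← add_assoc]
  have h1 := hLX _ (hall (2 * N))
  push_cast at h1
  have h2 := le_abs_self X
  have h3 : 2 * (-(N : ℝ) + 2 * N) * D = 2 * N * D := by ring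
  rw [h3] at h1
  linarith

lemma round_left (c : ℝ) : ∃ γ : ℤ, ∀ x y : ℤ, 0 ≤ y → y ≤ 4 → c * ((y : ℝ) - 2) ≤ x →
    γ * (y - 2) ≤ 2 * x := by
  obtain ⟨n, hn1, hn2⟩ : ∃ n : ℤ, (n : ℝ) ≤ c ∧ c < n + 1 := ⟨⌊c⌋, Int.floor_le c, Int.lt_floor_add_one c⟩
  rcases lt_trichotomy c (n + 1 / 2) with h | h | h
  · refine ⟨2 * n, fun x y h0 h4 hx => ?_⟩
    have : y = 0 ∨ y = 1 ∨ y = 2 ∨ y = 3 ∨ y = 4 := by omega
    rcases this with rfl | rfl | rfl | rfl | rfl
    · have h1 : (-(2 * n) - 1 : ℝ) < x := by push_cast at hx; linarith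
      have h2 : -(2 * n) - 1 < x := by exact_mod_cast h1
      linarith
    · have h1 : (2 * (-n) - 1 : ℝ) < 2 * x := by push_cast at hx; linarith
      have h2 : 2 * (-n) - 1 < 2 * x := by exact_mod_cast h1
      omega
    · have h1 : (0 : ℝ) ≤ x := by push_cast at hx; linarith
      have h2 : 0 ≤ x := by exact_mod_cast h1
      linarith
    · have h1 : (n : ℝ) ≤ x := by push_cast at hx; linarith
      have h2 : n ≤ x := by exact_mod_cast h1
      linarith
    · have h1 : (2 * n : ℝ) ≤ x := by push_cast at hx; linarith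
      have h2 : 2 * n ≤ x := by exact_mod_cast h1
      linarith
  · refine ⟨2 * n + 1, fun x y h0 h4 hx => ?_⟩
    have : y = 0 ∨ y = 1 ∨ y = 2 ∨ y = 3 ∨ y = 4 := by omega
    rcases this with rfl | rfl | rfl | rfl | rfl
    · have h1 : (-(2 * n) - 1 : ℝ) ≤ x := by push_cast at hx; linarith
      have h2 : -(2 * n) - 1 ≤ x := by exact_mod_cast h1
      linarith
    · have h1 : (2 * (-n) - 1 : ℝ) ≤ 2 * x := by push_cast at hx; linarith
      have h2 : 2 * (-n) - 1 ≤ 2 * x := by exact_mod_cast h1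
      omega
    · have h1 : (0 : ℝ) ≤ x := by push_cast at hx; linarith
      have h2 : 0 ≤ x := by exact_mod_cast h1
      linarith
    · have h1 : (2 * n + 1 : ℝ) ≤ 2 * x := by push_cast at hx; linarith
      have h2 : 2 * n + 1 ≤ 2 * x := by exact_mod_cast h1
      linarith
    · have h1 : (2 * n + 1 : ℝ) ≤ x := by push_cast at hx; linarith
      have h2 : 2 * n + 1 ≤ x := by exact_mod_cast h1
      linarith
  · refine ⟨2 * n + 2, fun x y h0 h4 hx => ?_⟩
    have : y = 0 ∨ y = 1 ∨ y = 2 ∨ y = 3 ∨ y = 4 := by omega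
    rcases this with rfl | rfl | rfl | rfl | rfl
    · have h1 : (-(2 * n) - 2 : ℝ) < x := by push_cast at hx; linarith
      have h2 : -(2 * n) - 2 < x := by exact_mod_cast h1
      linarith
    · have h1 : (-n - 1 : ℝ) < x := by push_cast at hx; linarith
      have h2 : -n - 1 < x := by exact_mod_cast h1
      linarith
    · have h1 : (0 : ℝ) ≤ x := by push_cast at hx; linarith
      have h2 : 0 ≤ x := by exact_mod_cast h1
      linarith
    · have h1 : (2 * n + 1 : ℝ) < 2 * x := by push_cast at hx; linarith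
      have h2 : 2 * n + 1 < 2 * x := by exact_mod_cast h1
      omega
    · have h1 : (2 * n + 1 : ℝ) < x := by push_cast at hx; linarith
      have h2 : 2 * n + 1 < x := by exact_mod_cast h1
      linarith

lemma round_right (d : ℝ) : ∃ δ : ℤ, ∀ x y : ℤ, 0 ≤ y → y ≤ 4 → (x : ℝ) ≤ 2 + d * ((y : ℝ) - 2) →
    2 * x ≤ 4 + δ * (y - 2) := by
  obtain ⟨γ, h⟩ := round_left (-d)
  refine ⟨-γ, fun x y h0 h4 hx => ?_⟩
  have h1 := h (2 - x) y h0 h4 (by push_cast; linarith)
  linarith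

section

variable {A : Finset (ℤ × ℤ)}

lemma mkEquiv (p q r s u v : ℤ) (h : (p * s - q * r) ^ 2 = 1) :
    IsEquiv fun a => (p * a.1 + q * a.2 + 2 * u, r * a.1 + s * a.2 + 2 * v) :=
  ⟨p, q, r, s, u, v, h, fun _ => rfl⟩

lemma core0 (h0 : ∀ a ∈ A, 0 ≤ a.2 ∧ a.2 ≤ 4) (δ : ℤ)
    (h1 : ∀ a ∈ A, 0 ≤ a.1) (h2 : ∀ a ∈ A, 2 * a.1 ≤ 4 + δ * (a.2 - 2)) : InList A := by
  have hy : ∀ a ∈ A, (a.2 = 0 ∨ a.2 = 1 ∨ a.2 = 2 ∨ a.2 = 3 ∨ a.2 = 4) := fun a ha => by
    have := h0 a ha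
    omega
  rcases le_or_gt δ (-5) with hδ | hδ
  · refine ⟨_, mkEquiv 1 0 0 1 0 0 (by norm_num), Or.inl fun a ha => ?_⟩
    have h3 := h1 a ha
    have h4 := h2 a ha
    show 0 ≤ _ ∧ _ ≤ _
    rcases hy a ha with h | h | h | h | h <;> rw [h] at h4 ⊢ <;> omega
  rcases le_or_gt 5 δ with hδ' | hδ'
  · refine ⟨_, mkEquiv 1 0 0 1 0 (-1) (by norm_num), Or.inl fun a ha => ?_⟩
    have h3 := h1 a ha
    have h4 := h2 a ha
    show 0 ≤ _ ∧ _ ≤ _
    rcases hy a ha with h | h | h | h | h <;> rw [h] at h4 ⊢ <;> omega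
  have hc : δ = -4 ∨ δ = -3 ∨ δ = -2 ∨ δ = -1 ∨ δ = 0 ∨ δ = 1 ∨ δ = 2 ∨ δ = 3 ∨ δ = 4 := by omega
  rcases hc with rfl | rfl | rfl | rfl | rfl | rfl | rfl | rfl | rfl
  · refine ⟨_, mkEquiv 1 0 0 1 0 0 (by norm_num), Or.inr (Or.inr (Or.inl fun a ha => ?_))⟩
    have h3 := h1 a ha
    have h4 := h2 a ha
    show 0 ≤ _ ∧ 0 ≤ _ ∧ _ ≤ _
    rcases hy a ha with h | h | h | h | h <;> rw [h] at h4 ⊢ <;> omega
  · refine ⟨_, mkEquiv 1 0 0 1 0 0 (by norm_num), Or.inr (Or.inr (Or.inl fun a ha => ?_))⟩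
    have h3 := h1 a ha
    have h4 := h2 a ha
    show 0 ≤ _ ∧ 0 ≤ _ ∧ _ ≤ _
    rcases hy a ha with h | h | h | h | h <;> rw [h] at h4 ⊢ <;> omega
  · refine ⟨_, mkEquiv 1 0 0 1 0 0 (by norm_num), Or.inr (Or.inl fun a ha => ?_)⟩
    have h3 := h1 a ha
    have h4 := h2 a ha
    show 0 ≤ _ ∧ 0 ≤ _ ∧ _ ≤ _
    rcases hy a ha with h | h | h | h | h <;> rw [h] at h4 ⊢ <;> omega
  · refine ⟨_, mkEquiv 0 1 1 0 0 0 (by norm_num), Or.inr (Or.inr (Or.inl fun a ha => ?_))⟩
    have h3 := h1 a ha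
    have h4 := h2 a ha
    show 0 ≤ _ ∧ 0 ≤ _ ∧ _ ≤ _
    rcases hy a ha with h | h | h | h | h <;> rw [h] at h4 ⊢ <;> omega
  · refine ⟨_, mkEquiv 0 1 1 0 0 0 (by norm_num), Or.inl fun a ha => ?_⟩
    have h3 := h1 a ha
    have h4 := h2 a ha
    show 0 ≤ _ ∧ _ ≤ _
    rcases hy a ha with h | h | h | h | h <;> rw [h] at h4 ⊢ <;> omega
  · refine ⟨_, mkEquiv 0 (-1) 1 0 2 0 (by norm_num), Or.inr (Or.inr (Or.inl fun a ha => ?_))⟩
    have h3 := h1 a ha
    have h4 := h2 a ha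
    show 0 ≤ _ ∧ 0 ≤ _ ∧ _ ≤ _
    rcases hy a ha with h | h | h | h | h <;> rw [h] at h4 ⊢ <;> omega
  · refine ⟨_, mkEquiv 1 0 0 (-1) 0 2 (by norm_num), Or.inr (Or.inl fun a ha => ?_)⟩
    have h3 := h1 a ha
    have h4 := h2 a ha
    show 0 ≤ _ ∧ 0 ≤ _ ∧ _ ≤ _
    rcases hy a ha with h | h | h | h | h <;> rw [h] at h4 ⊢ <;> omega
  · refine ⟨_, mkEquiv 1 0 0 (-1) 0 2 (by norm_num), Or.inr (Or.inr (Or.inl fun a ha => ?_))⟩
    have h3 := h1 a ha
    have h4 := h2 a ha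
    show 0 ≤ _ ∧ 0 ≤ _ ∧ _ ≤ _
    rcases hy a ha with h | h | h | h | h <;> rw [h] at h4 ⊢ <;> omega
  · refine ⟨_, mkEquiv 1 0 0 (-1) 0 2 (by norm_num), Or.inr (Or.inr (Or.inl fun a ha => ?_))⟩
    have h3 := h1 a ha
    have h4 := h2 a ha
    show 0 ≤ _ ∧ 0 ≤ _ ∧ _ ≤ _
    rcases hy a ha with h | h | h | h | h <;> rw [h] at h4 ⊢ <;> omega

lemma core1 (h0 : ∀ a ∈ A, 0 ≤ a.2 ∧ a.2 ≤ 4) (δ : ℤ)
    (h1 : ∀ a ∈ A, a.2 - 2 ≤ 2 * a.1) (h2 : ∀ a ∈ A, 2 * a.1 ≤ 4 + δ * (a.2 - 2)) : InList A := by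
  have hy : ∀ a ∈ A, (a.2 = 0 ∨ a.2 = 1 ∨ a.2 = 2 ∨ a.2 = 3 ∨ a.2 = 4) := fun a ha => by
    have := h0 a ha
    omega
  rcases le_or_gt δ (-3) with hδ | hδ
  · refine ⟨_, mkEquiv 1 0 0 1 0 0 (by norm_num), Or.inl fun a ha => ?_⟩
    have h3 := h1 a ha
    have h4 := h2 a ha
    show 0 ≤ _ ∧ _ ≤ _
    rcases hy a ha with h | h | h | h | h <;> rw [h] at h3 h4 ⊢ <;> omega
  rcases le_or_gt 5 δ with hδ' | hδ'
  · refine ⟨_, mkEquiv 1 0 0 1 0 (-1) (by norm_num), Or.inl fun a ha => ?_⟩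
    have h3 := h1 a ha
    have h4 := h2 a ha
    show 0 ≤ _ ∧ _ ≤ _
    rcases hy a ha with h | h | h | h | h <;> rw [h] at h3 h4 ⊢ <;> omega
  have hc : δ = -2 ∨ δ = -1 ∨ δ = 0 ∨ δ = 1 ∨ δ = 2 ∨ δ = 3 ∨ δ = 4 := by omega
  rcases hc with rfl | rfl | rfl | rfl | rfl | rfl | rfl
  · refine ⟨_, mkEquiv 1 (-1) 0 1 1 0 (by norm_num), Or.inr (Or.inr (Or.inl fun a ha => ?_))⟩
    have h3 := h1 a ha
    have h4 := h2 a ha
    show 0 ≤ _ ∧ 0 ≤ _ ∧ _ ≤ _
    rcases hy a ha with h | h | h | h | h <;> rw [h] at h3 h4 ⊢ <;> omega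
  · refine ⟨_, mkEquiv 0 1 1 0 0 0 (by norm_num), Or.inr (Or.inr (Or.inr (Or.inl fun a ha => ?_)))⟩
    have h3 := h1 a ha
    have h4 := h2 a ha
    show 0 ≤ _ ∧ _ ≤ _ ∧ _ ≤ _
    rcases hy a ha with h | h | h | h | h <;> rw [h] at h3 h4 ⊢ <;> omega
  · refine ⟨_, mkEquiv 0 1 (-1) 0 0 1 (by norm_num), Or.inr (Or.inr (Or.inl fun a ha => ?_))⟩
    have h3 := h1 a ha
    have h4 := h2 a ha
    show 0 ≤ _ ∧ 0 ≤ _ ∧ _ ≤ _
    rcases hy a ha with h | h | h | h | h <;> rw [h] at h3 h4 ⊢ <;> omega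
  · refine ⟨_, mkEquiv 1 0 (-1) 1 0 0 (by norm_num), Or.inr (Or.inr (Or.inr (Or.inr fun a ha => ?_)))⟩
    have h3 := h1 a ha
    have h4 := h2 a ha
    have h5 := h0 a ha
    show |_| + |_| ≤ _
    rcases abs_cases (1 * a.1 + 0 * a.2 + 2 * 0 - 1 : ℤ) with ⟨e1, _⟩ | ⟨e1, _⟩ <;>
      rcases abs_cases (-1 * a.1 + 1 * a.2 + 2 * 0 - 1 : ℤ) with ⟨e2, _⟩ | ⟨e2, _⟩ <;>
      rw [e1, e2] <;> omega
  · refine ⟨_, mkEquiv 0 (-1) (-1) 1 2 0 (by norm_num), Or.inr (Or.inr (Or.inl fun a ha => ?_))⟩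
    have h3 := h1 a ha
    have h4 := h2 a ha
    show 0 ≤ _ ∧ 0 ≤ _ ∧ _ ≤ _
    rcases hy a ha with h | h | h | h | h <;> rw [h] at h3 h4 ⊢ <;> omega
  · refine ⟨_, mkEquiv 0 (-1) 1 (-1) 2 1 (by norm_num), Or.inr (Or.inr (Or.inr (Or.inl fun a ha => ?_)))⟩
    have h3 := h1 a ha
    have h4 := h2 a ha
    show 0 ≤ _ ∧ _ ≤ _ ∧ _ ≤ _
    rcases hy a ha with h | h | h | h | h <;> rw [h] at h3 h4 ⊢ <;> omega
  · refine ⟨_, mkEquiv 1 0 0 (-1) 0 2 (by norm_num), Or.inr (Or.inr (Or.inl fun a ha => ?_))⟩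
    have h3 := h1 a ha
    have h4 := h2 a ha
    show 0 ≤ _ ∧ 0 ≤ _ ∧ _ ≤ _
    rcases hy a ha with h | h | h | h | h <;> rw [h] at h3 h4 ⊢ <;> omega

lemma core (h0 : ∀ a ∈ A, 0 ≤ a.2 ∧ a.2 ≤ 4) (γ δ : ℤ)
    (h1 : ∀ a ∈ A, γ * (a.2 - 2) ≤ 2 * a.1) (h2 : ∀ a ∈ A, 2 * a.1 ≤ 4 + δ * (a.2 - 2)) : InList A := by
  classical
  obtain ⟨j, hj⟩ := Int.even_or_odd' γ
  have hg := mkEquiv 1 (-j) 0 1 j 0 (by norm_num)
  refine InList.of_image hg ?_
  have hb : ∀ b ∈ A.image (fun a => (1 * a.1 + -j * a.2 + 2 * j, 0 * a.1 + 1 * a.2 + 2 * 0)),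
      ∃ a ∈ A, b.1 = a.1 - j * (a.2 - 2) ∧ b.2 = a.2 := by
    intro b hb
    rw [Finset.mem_image] at hb
    obtain ⟨a, ha, rfl⟩ := hb
    exact ⟨a, ha, by simp only; ring, by simp only; ring⟩
  rcases hj with hj | hj
  · refine core0 ?_ (δ - 2 * j) ?_ ?_
    · intro b hb'
      obtain ⟨a, ha, e1, e2⟩ := hb b hb'
      rw [e2]
      exact h0 a ha
    · intro b hb'
      obtain ⟨a, ha, e1, e2⟩ := hb b hb'
      have h3 := h1 a ha
      rw [hj] at h3
      rw [e1]
      linarith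
    · intro b hb'
      obtain ⟨a, ha, e1, e2⟩ := hb b hb'
      have h3 := h2 a ha
      rw [e1, e2]
      linarith
  · refine core1 ?_ (δ - 2 * j) ?_ ?_
    · intro b hb'
      obtain ⟨a, ha, e1, e2⟩ := hb b hb'
      rw [e2]
      exact h0 a ha
    · intro b hb'
      obtain ⟨a, ha, e1, e2⟩ := hb b hb'
      have h3 := h1 a ha
      rw [hj] at h3
      rw [e1, e2]
      linarith
    · intro b hb'
      obtain ⟨a, ha, e1, e2⟩ := hb b hb'
      have h3 := h2 a ha
      rw [e1, e2]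
      linarith

/-- at most one even level in the interior -/
lemma narrow (hA : NoEven A) (h0 : ∀ a ∈ A, 0 ≤ a.2 ∧ a.2 ≤ 4) : InList A := by
  classical
  by_cases hb : ∃ b ∈ A, b.2 < 2
  swap
  · push Not at hb
    refine ⟨_, mkEquiv 1 0 0 1 0 (-1) (by norm_num), Or.inl fun a ha => ?_⟩
    have h3 := hb a ha
    have h4 := h0 a ha
    show 0 ≤ _ ∧ _ ≤ _
    constructor <;> linarith [h4.1, h4.2]
  by_cases ht : ∃ t ∈ A, 2 < t.2
  swap
  · push Not at ht
    refine ⟨_, mkEquiv 1 0 0 1 0 0 (by norm_num), Or.inl fun a ha => ?_⟩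
    have h3 := ht a ha
    have h4 := h0 a ha
    show 0 ≤ _ ∧ _ ≤ _
    constructor <;> linarith [h4.1, h4.2]
  obtain ⟨b, hb, hb2⟩ := hb
  obtain ⟨t, ht, ht2⟩ := ht
  obtain ⟨k, c, d, h⟩ := section_gap hA 1 hb ht (by linarith) (by linarith)
  obtain ⟨γ, hγ⟩ := round_left c
  obtain ⟨δ, hδ⟩ := round_right d
  refine InList.of_image (mkEquiv 1 0 0 1 (-k) 0 (by norm_num)) ?_
  have hb : ∀ b ∈ A.image (fun a => (1 * a.1 + 0 * a.2 + 2 * -k, 0 * a.1 + 1 * a.2 + 2 * 0)),
      ∃ a ∈ A, b.1 = a.1 - 2 * k ∧ b.2 = a.2 := by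
    intro b hb
    rw [Finset.mem_image] at hb
    obtain ⟨a, ha, rfl⟩ := hb
    exact ⟨a, ha, by simp only; ring, by simp only; ring⟩
  refine core ?_ γ δ ?_ ?_
  · intro b hb'
    obtain ⟨a, ha, e1, e2⟩ := hb b hb'
    rw [e2]
    exact h0 a ha
  · intro b hb'
    obtain ⟨a, ha, e1, e2⟩ := hb b hb'
    rw [e1, e2]
    refine hγ _ _ (h0 a ha).1 (h0 a ha).2 ?_
    have := (h a ha).1
    push_cast at this ⊢
    linarith
  · intro b hb'
    obtain ⟨a, ha, e1, e2⟩ := hb b hb'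
    rw [e1, e2]
    refine hδ _ _ (h0 a ha).1 (h0 a ha).2 ?_
    have := (h a ha).2
    push_cast at this ⊢
    linarith

end

/-! ### arithmetic -/

lemma ar1 {e h1 h2 : ℤ} (hh1 : 1 ≤ h1) (hh2 : 1 ≤ h2) (a : e * h1 ≤ 2) (_b : e * h2 ≤ 2)
    (c : h1 + h2 ≤ e) : h1 = 1 ∧ h2 = 1 ∧ e = 2 := by
  have he : 2 ≤ e := by linarith
  have h3 : h1 ≤ 1 := by
    by_contra hlt
    rw [not_le] at hlt
    nlinarith
  have h4 : h2 ≤ 1 := by
    by_contra hlt
    rw [not_le] at hlt
    nlinarith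
  have h5 : h1 = 1 := le_antisymm h3 hh1
  have h6 : h2 = 1 := le_antisymm h4 hh2
  refine ⟨h5, h6, ?_⟩
  rw [h5] at a
  linarith

/-- one boundary bulges, the other one goes out beyond -/
lemma ar3 {er el h1 h2 q b : ℤ} (h1r : 1 ≤ er) (h1l : 1 ≤ el) (hh2 : 1 ≤ h2) (hq : 1 ≤ q)
    (hq1 : q ≤ h1) (a : el * (2 + h2) ≤ b * q) (c : b ≤ 2 - er * h2) (d : h1 + h2 ≤ er + el) :
    False := by
  have hb : 1 ≤ b := by
    by_contra hlt
    rw [not_le] at hlt
    nlinarith
  have h3 : er * h2 ≤ 1 := by linarith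
  have h4 : er ≤ 1 := by nlinarith
  have h5 : h2 ≤ 1 := by nlinarith
  have h6 : er = 1 := le_antisymm h4 h1r
  have h7 : h2 = 1 := le_antisymm h5 hh2
  rw [h6, h7] at c d
  rw [h7] at a
  have hb1 : b = 1 := by linarith
  rw [hb1] at a
  linarith

lemma ar4 {er el h1 h2 p q b : ℤ} (h1r : 1 ≤ er) (h1l : 1 ≤ el) (hh1 : 1 ≤ h1) (hh2 : 1 ≤ h2)
    (hp : 1 ≤ p) (hp1 : p ≤ h1) (hq : 1 ≤ q) (hq1 : q ≤ h1)
    (a : b * p + (2 + er) * (2 + h2) ≤ 2 * (p + 2 + h2)) (c : el * (2 + h2) ≤ b * q)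
    (d : h1 + h2 ≤ er + el) : False := by
  have hb : 1 ≤ b := by
    by_contra hlt
    rw [not_le] at hlt
    nlinarith
  have h3 : er * (2 + h2) ≤ (2 - b) * p := by linarith
  have h4 : 1 ≤ 2 - b := by
    by_contra hlt
    rw [not_le] at hlt
    nlinarith
  have h5 : b * q ≤ b * h1 := by nlinarith
  have h6 : (2 - b) * p ≤ (2 - b) * h1 := by nlinarith
  have h7 : (er + el) * (2 + h2) ≤ 2 * h1 := by nlinarith
  nlinarith

lemma ar5 {e h1 h2 p b : ℤ} (hh1 : 1 ≤ h1) (hh2 : 1 ≤ h2) (hp1 : 1 ≤ p) (hp : p ≤ h1) (hb : 0 ≤ b)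
    (a : b * p + (2 + e) * (2 + h2) ≤ 2 * (p + 2 + h2)) (d : h1 + h2 ≤ e) : False := by
  have h3 : 0 ≤ b * p := by positivity
  have h4 : e * (2 + h2) ≤ 2 * h1 := by linarith
  nlinarith

lemma ar6 {er el h1 h2 p q : ℤ} (hp : 1 ≤ p) (hp1 : p ≤ h1) (hq : 1 ≤ q) (hq1 : q ≤ h2)
    (a : er * (2 + q) ≤ (2 + el) * p) (b : el * (2 + p) ≤ (2 + er) * q)
    (d : h1 + h2 ≤ er + el) : er = h1 ∧ p = h1 ∧ el = h2 ∧ q = h2 := by
  have h3 : er ≤ p := by
    by_contra hlt
    rw [not_le] at hlt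
    have h4 : (er - p) * (2 + q) ≤ (el - q) * p := by linarith
    have h5 : (el - q) * (2 + p) ≤ (er - p) * q := by linarith
    have h6 : 0 < (er - p) * (2 + q) := by
      apply mul_pos <;> linarith
    have h7 : 0 < el - q := by
      by_contra hle
      rw [not_lt] at hle
      nlinarith
    nlinarith
  have h4 : el ≤ q := by
    by_contra hlt
    rw [not_le] at hlt
    have h5 : (el - q) * (2 + p) ≤ (er - p) * q := by linarith
    have h6 : 0 < (el - q) * (2 + p) := by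
      apply mul_pos <;> linarith
    nlinarith
  refine ⟨?_, ?_, ?_, ?_⟩ <;> linarith

section

variable {A : Finset (ℤ × ℤ)}

/-- the pair inequalities at an even level -/
def Lvl (A : Finset (ℤ × ℤ)) (n : ℤ) : Prop :=
  ∀ a ∈ A, ∀ b ∈ A, a.2 ≤ n → n ≤ b.2 →
    0 ≤ a.1 * (b.2 - n) + b.1 * (n - a.2) ∧
      a.1 * (b.2 - n) + b.1 * (n - a.2) ≤ 2 * (b.2 - a.2)

lemma lvl_of_real {n : ℤ} {c d : ℝ} (h : ∀ a ∈ A, c * ((a.2 : ℝ) - n) ≤ a.1 ∧
    (a.1 : ℝ) ≤ 2 + d * ((a.2 : ℝ) - n)) : Lvl A n := by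
  intro a ha b hb h1 h2
  have h1' : (0 : ℝ) ≤ n - a.2 := by
    have : (a.2 : ℝ) ≤ n := by exact_mod_cast h1
    linarith
  have h2' : (0 : ℝ) ≤ b.2 - n := by
    have : (n : ℝ) ≤ b.2 := by exact_mod_cast h2
    linarith
  constructor
  · have h3 := mul_le_mul_of_nonneg_right (h a ha).1 h2'
    have h4 := mul_le_mul_of_nonneg_right (h b hb).1 h1'
    have h5 : (0 : ℝ) ≤ a.1 * (b.2 - n) + b.1 * (n - a.2) := by nlinarith
    exact_mod_cast h5
  · have h3 := mul_le_mul_of_nonneg_right (h a ha).2 h2'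
    have h4 := mul_le_mul_of_nonneg_right (h b hb).2 h1'
    have h5 : (a.1 * (b.2 - n) + b.1 * (n - a.2) : ℝ) ≤ 2 * (b.2 - a.2) := by nlinarith
    exact_mod_cast h5

lemma wide_core {h1 h2 : ℤ} (hh1 : 1 ≤ h1) (hh2 : 1 ≤ h2)
    (hr : ∀ a ∈ A, -h2 ≤ a.2 ∧ a.2 ≤ 2 + h1) {T B : ℤ × ℤ} (hT : T ∈ A) (hT2 : T.2 = 2 + h1)
    (hB : B ∈ A) (hB2 : B.2 = -h2) (l0 : Lvl A 0) (l2 : Lvl A 2)
    (hmin : ∀ g, IsEquiv g → ∀ x₀ : ℤ, ∃ a ∈ A, (g a).2 < x₀ ∨ x₀ + (1 + h1 + h2) < (g a).2) :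
    InList A := by
  classical
  obtain ⟨X, hX, hXm⟩ := Finset.exists_max_image A Prod.fst ⟨T, hT⟩
  obtain ⟨Y, hY, hYm⟩ := Finset.exists_min_image A Prod.fst ⟨T, hT⟩
  have hw : 2 + h1 + h2 ≤ X.1 - Y.1 := by
    obtain ⟨a, ha, h⟩ := hmin _ (mkEquiv 0 1 1 0 0 0 (by norm_num)) Y.1
    have h3 := hXm a ha
    have h4 := hYm a ha
    simp only at h h3 h4
    rcases h with h | h <;> linarith
  have hXr := hr X hX
  have hYr := hr Y hY
  -- inequalities with top and bottom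
  have hXB0 : 0 ≤ X.2 → 0 ≤ B.1 * X.2 + X.1 * h2 ∧ B.1 * X.2 + X.1 * h2 ≤ 2 * (X.2 + h2) := by
    intro h
    have := l0 B hB X hX (by linarith) h
    rw [hB2] at this
    constructor <;> linarith [this.1, this.2]
  have hYB0 : 0 ≤ Y.2 → 0 ≤ B.1 * Y.2 + Y.1 * h2 ∧ B.1 * Y.2 + Y.1 * h2 ≤ 2 * (Y.2 + h2) := by
    intro h
    have := l0 B hB Y hY (by linarith) h
    rw [hB2] at this
    constructor <;> linarith [this.1, this.2]
  have hXB2 : 2 ≤ X.2 → 0 ≤ B.1 * (X.2 - 2) + X.1 * (2 + h2) ∧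
      B.1 * (X.2 - 2) + X.1 * (2 + h2) ≤ 2 * (X.2 + h2) := by
    intro h
    have := l2 B hB X hX (by linarith) h
    rw [hB2] at this
    constructor <;> linarith [this.1, this.2]
  have hYB2 : 2 ≤ Y.2 → 0 ≤ B.1 * (Y.2 - 2) + Y.1 * (2 + h2) ∧
      B.1 * (Y.2 - 2) + Y.1 * (2 + h2) ≤ 2 * (Y.2 + h2) := by
    intro h
    have := l2 B hB Y hY (by linarith) h
    rw [hB2] at this
    constructor <;> linarith [this.1, this.2]
  have hXT2 : X.2 ≤ 2 → 0 ≤ X.1 * h1 + T.1 * (2 - X.2) ∧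
      X.1 * h1 + T.1 * (2 - X.2) ≤ 2 * (2 + h1 - X.2) := by
    intro h
    have := l2 X hX T hT h (by linarith)
    rw [hT2] at this
    constructor <;> linarith [this.1, this.2]
  have hYT2 : Y.2 ≤ 2 → 0 ≤ Y.1 * h1 + T.1 * (2 - Y.2) ∧
      Y.1 * h1 + T.1 * (2 - Y.2) ≤ 2 * (2 + h1 - Y.2) := by
    intro h
    have := l2 Y hY T hT h (by linarith)
    rw [hT2] at this
    constructor <;> linarith [this.1, this.2]
  have hXT0 : X.2 ≤ 0 → 0 ≤ X.1 * (2 + h1) - T.1 * X.2 ∧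
      X.1 * (2 + h1) - T.1 * X.2 ≤ 2 * (2 + h1 - X.2) := by
    intro h
    have := l0 X hX T hT h (by linarith)
    rw [hT2] at this
    constructor <;> linarith [this.1, this.2]
  have hYT0 : Y.2 ≤ 0 → 0 ≤ Y.1 * (2 + h1) - T.1 * Y.2 ∧
      Y.1 * (2 + h1) - T.1 * Y.2 ≤ 2 * (2 + h1 - Y.2) := by
    intro h
    have := l0 Y hY T hT h (by linarith)
    rw [hT2] at this
    constructor <;> linarith [this.1, this.2]
  have hBX := hXm B hB
  have hTX := hXm T hT
  have hBY := hYm B hB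
  have hTY := hYm T hT
  -- where the rightmost point is
  have hR : X.1 ≤ 2 ∨ (3 ≤ X.1 ∧ X.2 = 1) ∨ (3 ≤ X.1 ∧ 3 ≤ X.2) ∨ (3 ≤ X.1 ∧ X.2 ≤ -1) := by
    rcases le_or_gt X.1 2 with h | h
    · exact Or.inl h
    · right
      have h3 : X.2 ≠ 0 := by
        intro h0
        have := (hXB0 (by linarith)).2
        rw [h0] at this
        nlinarith
      have h4 : X.2 ≠ 2 := by
        intro h0
        have := (hXT2 (by linarith)).2
        rw [h0] at this
        nlinarith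
      omega
  have hL : 0 ≤ Y.1 ∨ (Y.1 ≤ -1 ∧ Y.2 = 1) ∨ (Y.1 ≤ -1 ∧ 3 ≤ Y.2) ∨ (Y.1 ≤ -1 ∧ Y.2 ≤ -1) := by
    rcases le_or_gt 0 Y.1 with h | h
    · exact Or.inl h
    · right
      have h3 : Y.2 ≠ 0 := by
        intro h0
        have := (hYB0 (by linarith)).1
        rw [h0] at this
        nlinarith
      have h4 : Y.2 ≠ 2 := by
        intro h0
        have := (hYT2 (by linarith)).1
        rw [h0] at this
        nlinarith
      omega
  rcases hR with hR | ⟨hR, hRm⟩ | ⟨hR, hRt⟩ | ⟨hR, hRb⟩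
  · -- right boundary inside
    rcases hL with hL | ⟨hL, hLm⟩ | ⟨hL, hLt⟩ | ⟨hL, hLb⟩
    · exfalso
      linarith
    · -- left bulge
      have i1 := (hYT2 (by linarith)).1
      have i2 := (hYB0 (by linarith)).1
      rw [hLm] at i1 i2
      have j1 : (-Y.1) * h1 ≤ 2 := by linarith
      have j2 : (-Y.1) * h2 ≤ 2 := by linarith
      obtain ⟨e1, e2, e3⟩ := ar1 hh1 hh2 j1 j2 (by linarith)
      have hY1 : Y.1 = -2 := by linarith
      have hX1 : ∀ a ∈ A, a.1 ≤ 2 := fun a ha => by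
        have := hXm a ha
        linarith
      refine ⟨_, mkEquiv (-1) 0 0 1 1 0 (by norm_num), Or.inr (Or.inr (Or.inr (Or.inl fun a ha => ?_)))⟩
      have k1 := hr a ha
      have k2 := hX1 a ha
      have k3 := hYm a ha
      rw [e1, e2] at k1
      have k4 : a.2 = -1 ∨ a.2 = 0 ∨ a.2 = 1 ∨ a.2 = 2 ∨ a.2 = 3 := by omega
      show 0 ≤ _ ∧ _ ≤ _ ∧ _ ≤ _
      rcases k4 with k4 | k4 | k4 | k4 | k4
      · have k5 := (l0 a ha Y hY (by linarith) (by linarith)).1
        rw [hLm, k4, hY1] at k5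
        rw [k4]
        omega
      · have k5 := (l0 a ha T hT (by linarith) (by linarith)).1
        rw [hT2, k4, e1] at k5
        rw [k4]
        omega
      · rw [k4]
        omega
      · have k5 := (l2 B hB a ha (by linarith) (by linarith)).1
        rw [hB2, k4, e2] at k5
        rw [k4]
        omega
      · have k5 := (l2 Y hY a ha (by linarith) (by linarith)).1
        rw [hLm, k4, hY1] at k5
        rw [k4]
        omega
    · exfalso
      have i1 := (hYB2 (by linarith)).1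
      refine ar5 (e := -Y.1) (h1 := h1) (h2 := h2) (p := Y.2 - 2) (b := 2 - B.1) hh1 hh2 (by linarith)
        (by linarith) (by linarith) ?_ (by linarith)
      linarith
    · exfalso
      have i1 := (hYT0 (by linarith)).1
      refine ar5 (e := -Y.1) (h1 := h2) (h2 := h1) (p := -Y.2) (b := 2 - T.1) hh2 hh1 (by linarith)
        (by linarith) (by linarith) ?_ (by linarith)
      linarith
  · -- right bulge
    have i1 := (hXT2 (by linarith)).2
    have i2 := (hXB0 (by linarith)).2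
    rw [hRm] at i1 i2
    have j1 : T.1 ≤ 2 - (X.1 - 2) * h1 := by linarith
    have j2 : B.1 ≤ 2 - (X.1 - 2) * h2 := by linarith
    rcases hL with hL | ⟨hL, hLm⟩ | ⟨hL, hLt⟩ | ⟨hL, hLb⟩
    · obtain ⟨e1, e2, e3⟩ := ar1 (e := X.1 - 2) hh1 hh2 (by linarith) (by linarith) (by linarith)
      have hX1 : X.1 = 4 := by linarith
      refine ⟨_, mkEquiv 1 0 0 1 0 0 (by norm_num), Or.inr (Or.inr (Or.inr (Or.inl fun a ha => ?_)))⟩
      have k1 := hr a ha
      have k2 := hXm a ha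
      have k3 := hYm a ha
      rw [e1, e2] at k1
      have k4 : a.2 = -1 ∨ a.2 = 0 ∨ a.2 = 1 ∨ a.2 = 2 ∨ a.2 = 3 := by omega
      show 0 ≤ _ ∧ _ ≤ _ ∧ _ ≤ _
      rcases k4 with k4 | k4 | k4 | k4 | k4
      · have k5 := (l0 a ha X hX (by linarith) (by linarith)).2
        rw [hRm, k4, hX1] at k5
        rw [k4]
        omega
      · have k5 := (l0 a ha T hT (by linarith) (by linarith)).2
        rw [hT2, k4, e1] at k5
        rw [k4]
        omega
      · rw [k4]
        omega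
      · have k5 := (l2 B hB a ha (by linarith) (by linarith)).2
        rw [hB2, k4, e2] at k5
        rw [k4]
        omega
      · have k5 := (l2 X hX a ha (by linarith) (by linarith)).2
        rw [hRm, k4, hX1] at k5
        rw [k4]
        omega
    · -- both bulge
      have i3 := (hYT2 (by linarith)).1
      have i4 := (hYB0 (by linarith)).1
      rw [hLm] at i3 i4
      have j3 : (X.1 - 2 - Y.1) * h1 ≤ 2 := by linarith
      have j4 : (X.1 - 2 - Y.1) * h2 ≤ 2 := by linarith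
      obtain ⟨e1, e2, e3⟩ := ar1 hh1 hh2 j3 j4 (by linarith)
      have hX1 : X.1 = 3 := by linarith
      have hY1 : Y.1 = -1 := by linarith
      refine ⟨_, mkEquiv 1 0 0 1 0 0 (by norm_num), Or.inr (Or.inr (Or.inr (Or.inr fun a ha => ?_)))⟩
      have k1 := hr a ha
      have k2 := hXm a ha
      have k3 := hYm a ha
      rw [e1, e2] at k1
      have k4 : a.2 = -1 ∨ a.2 = 0 ∨ a.2 = 1 ∨ a.2 = 2 ∨ a.2 = 3 := by omega
      have key : (a.2 = 1 ∧ -1 ≤ a.1 ∧ a.1 ≤ 3) ∨ ((a.2 = 0 ∨ a.2 = 2) ∧ 0 ≤ a.1 ∧ a.1 ≤ 2) ∨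
          ((a.2 = -1 ∨ a.2 = 3) ∧ a.1 = 1) := by
        rcases k4 with k4 | k4 | k4 | k4 | k4
        · have k5 := (l0 a ha X hX (by linarith) (by linarith)).2
          have k6 := (l0 a ha Y hY (by linarith) (by linarith)).1
          rw [hRm, k4, hX1] at k5
          rw [hLm, k4, hY1] at k6
          omega
        · have k5 := (l0 a ha T hT (by linarith) (by linarith))
          rw [hT2, k4, e1] at k5
          omega
        · omega
        · have k5 := (l2 B hB a ha (by linarith) (by linarith))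
          rw [hB2, k4, e2] at k5
          omega
        · have k5 := (l2 X hX a ha (by linarith) (by linarith)).2
          have k6 := (l2 Y hY a ha (by linarith) (by linarith)).1
          rw [hRm, k4, hX1] at k5
          rw [hLm, k4, hY1] at k6
          omega
      show |_| + |_| ≤ _
      rcases abs_cases (1 * a.1 + 0 * a.2 + 2 * 0 - 1 : ℤ) with ⟨c1, _⟩ | ⟨c1, _⟩ <;>
        rcases abs_cases (0 * a.1 + 1 * a.2 + 2 * 0 - 1 : ℤ) with ⟨c2, _⟩ | ⟨c2, _⟩ <;>
        rw [c1, c2] <;> omega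
    · exfalso
      have i3 := (hYB2 (by linarith)).1
      exact ar3 (er := X.1 - 2) (el := -Y.1) (h1 := h1) (h2 := h2) (q := Y.2 - 2) (b := B.1)
        (by linarith) (by linarith) hh2 (by linarith) (by linarith) (by linarith) j2 (by linarith)
    · exfalso
      have i3 := (hYT0 (by linarith)).1
      exact ar3 (er := X.1 - 2) (el := -Y.1) (h1 := h2) (h2 := h1) (q := -Y.2) (b := T.1)
        (by linarith) (by linarith) hh1 (by linarith) (by linarith) (by linarith) j1 (by linarith)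
  · -- rightmost point above
    have i1 := (hXB2 (by linarith)).2
    rcases hL with hL | ⟨hL, hLm⟩ | ⟨hL, hLt⟩ | ⟨hL, hLb⟩
    · exfalso
      refine ar5 (e := X.1 - 2) (h1 := h1) (h2 := h2) (p := X.2 - 2) (b := B.1) hh1 hh2 (by linarith)
        (by linarith) (by linarith) ?_ (by linarith)
      linarith
    · exfalso
      have i3 := (hYB0 (by linarith)).1
      rw [hLm] at i3
      exact ar3 (er := -Y.1) (el := X.1 - 2) (h1 := h1) (h2 := h2) (q := X.2 - 2) (b := 2 - B.1)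
        (by linarith) (by linarith) hh2 (by linarith) (by linarith) (by linarith) (by linarith)
        (by linarith)
    · exfalso
      have i3 := (hYB2 (by linarith)).1
      exact ar4 (er := X.1 - 2) (el := -Y.1) (h1 := h1) (h2 := h2) (p := X.2 - 2) (q := Y.2 - 2)
        (b := B.1) (by linarith) (by linarith) hh1 hh2 (by linarith) (by linarith) (by linarith)
        (by linarith) (by linarith) (by linarith) (by linarith)
    · exfalso
      have i3 := (l2 Y hY X hX (by linarith) (by linarith)).2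
      have i4 := (l0 Y hY X hX (by linarith) (by linarith)).1
      obtain ⟨e1, e2, e3, e4⟩ := ar6 (er := X.1 - 2) (el := -Y.1) (h1 := h1) (h2 := h2)
        (p := X.2 - 2) (q := -Y.2) (by linarith) (by linarith) (by linarith) (by linarith)
        (by linarith) (by linarith) (by linarith)
      have hX1 : X.1 = 2 + h1 := by linarith
      have hX2 : X.2 = 2 + h1 := by linarith
      have hY1 : Y.1 = -h2 := by linarith
      have hY2 : Y.2 = -h2 := by linarith
      have hall : ∀ a ∈ A, a.1 = a.2 := by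
        intro a ha
        rcases le_or_gt 1 a.2 with h | h
        · have k1 := (l0 Y hY a ha (by linarith) (by linarith)).1
          rw [hY1, hY2] at k1
          have k2 : a.2 ≤ a.1 := by
            by_contra hlt
            rw [not_le] at hlt
            nlinarith
          rcases le_or_gt 2 a.2 with h' | h'
          · have k3 := (l2 Y hY a ha (by linarith) (by linarith)).2
            rw [hY1, hY2] at k3
            have k4 : a.1 ≤ a.2 := by
              by_contra hlt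
              rw [not_le] at hlt
              nlinarith
            linarith
          · have k3 := (l2 a ha X hX (by linarith) (by linarith)).2
            rw [hX1, hX2] at k3
            have h5 : a.2 = 1 := by omega
            rw [h5] at k3 k2
            have k4 : a.1 ≤ 1 := by
              by_contra hlt
              rw [not_le] at hlt
              nlinarith
            rw [h5]
            linarith
        · have k1 := (l0 a ha X hX (by omega) (by linarith)).1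
          have k3 := (l2 a ha X hX (by linarith) (by linarith)).2
          rw [hX1, hX2] at k1 k3
          have k2 : a.2 ≤ a.1 := by
            by_contra hlt
            rw [not_le] at hlt
            nlinarith
          have k4 : a.1 ≤ a.2 := by
            by_contra hlt
            rw [not_le] at hlt
            nlinarith
          linarith
      obtain ⟨a, ha, h⟩ := hmin _ (mkEquiv 1 0 1 (-1) 0 0 (by norm_num)) 0
      have h5 := hall a ha
      simp only at h
      rw [h5] at h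
      rcases h with h | h <;> linarith
  · -- rightmost point below
    have i1 := (hXT0 (by linarith)).2
    rcases hL with hL | ⟨hL, hLm⟩ | ⟨hL, hLt⟩ | ⟨hL, hLb⟩
    · exfalso
      refine ar5 (e := X.1 - 2) (h1 := h2) (h2 := h1) (p := -X.2) (b := T.1) hh2 hh1 (by linarith)
        (by linarith) (by linarith) ?_ (by linarith)
      linarith
    · exfalso
      have i3 := (hYT2 (by linarith)).1
      rw [hLm] at i3
      exact ar3 (er := -Y.1) (el := X.1 - 2) (h1 := h2) (h2 := h1) (q := -X.2) (b := 2 - T.1)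
        (by linarith) (by linarith) hh1 (by linarith) (by linarith) (by linarith) (by linarith)
        (by linarith)
    · exfalso
      have i3 := (l2 X hX Y hY (by linarith) (by linarith)).1
      have i4 := (l0 X hX Y hY (by linarith) (by linarith)).2
      obtain ⟨e1, e2, e3, e4⟩ := ar6 (er := X.1 - 2) (el := -Y.1) (h1 := h2) (h2 := h1)
        (p := -X.2) (q := Y.2 - 2) (by linarith) (by linarith) (by linarith) (by linarith)
        (by linarith) (by linarith) (by linarith)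
      have hX1 : X.1 = 2 + h2 := by linarith
      have hX2 : X.2 = -h2 := by linarith
      have hY1 : Y.1 = -h1 := by linarith
      have hY2 : Y.2 = 2 + h1 := by linarith
      have hall : ∀ a ∈ A, a.1 + a.2 = 2 := by
        intro a ha
        rcases le_or_gt 1 a.2 with h | h
        · have k1 := (l0 X hX a ha (by linarith) (by linarith)).2
          rw [hX1, hX2] at k1
          have k2 : a.1 ≤ 2 - a.2 := by
            by_contra hlt
            rw [not_le] at hlt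
            nlinarith
          rcases le_or_gt 2 a.2 with h' | h'
          · have k3 := (l2 X hX a ha (by linarith) (by linarith)).1
            rw [hX1, hX2] at k3
            have k4 : 2 - a.2 ≤ a.1 := by
              by_contra hlt
              rw [not_le] at hlt
              nlinarith
            linarith
          · have k3 := (l2 a ha Y hY (by linarith) (by linarith)).1
            rw [hY1, hY2] at k3
            have h5 : a.2 = 1 := by omega
            rw [h5] at k3 k2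
            have k4 : 1 ≤ a.1 := by
              by_contra hlt
              rw [not_le] at hlt
              nlinarith
            rw [h5]
            linarith
        · have k1 := (l0 a ha Y hY (by omega) (by linarith)).2
          have k3 := (l2 a ha Y hY (by linarith) (by linarith)).1
          rw [hY1, hY2] at k1 k3
          have k2 : a.1 ≤ 2 - a.2 := by
            by_contra hlt
            rw [not_le] at hlt
            nlinarith
          have k4 : 2 - a.2 ≤ a.1 := by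
            by_contra hlt
            rw [not_le] at hlt
            nlinarith
          linarith
      obtain ⟨a, ha, h⟩ := hmin _ (mkEquiv 1 0 1 1 0 0 (by norm_num)) 2
      have h5 := hall a ha
      simp only at h
      rcases h with h | h <;> linarith
    · exfalso
      have i3 := (hYT0 (by linarith)).1
      exact ar4 (er := X.1 - 2) (el := -Y.1) (h1 := h2) (h2 := h1) (p := -X.2) (q := -Y.2)
        (b := T.1) (by linarith) (by linarith) hh2 hh1 (by linarith) (by linarith) (by linarith)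
        (by linarith) (by linarith) (by linarith) (by linarith)

end

section

variable {A : Finset (ℤ × ℤ)}

/-- two even levels in the interior, minimal width -/
lemma wide (hA : NoEven A) {h1 h2 : ℤ} (hh1 : 1 ≤ h1) (hh2 : 1 ≤ h2)
    (hr : ∀ a ∈ A, -h2 ≤ a.2 ∧ a.2 ≤ 2 + h1)
    (hmin : ∀ g, IsEquiv g → ∀ x₀ : ℤ, ∃ a ∈ A, (g a).2 < x₀ ∨ x₀ + (1 + h1 + h2) < (g a).2) :
    InList A := by
  classical
  obtain ⟨T, hT, hT2⟩ : ∃ T ∈ A, T.2 = 2 + h1 := by
    obtain ⟨a, ha, h⟩ := hmin _ IsEquiv.id (-h2)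
    have := hr a ha
    exact ⟨a, ha, by rcases h with h | h <;> omega⟩
  obtain ⟨B, hB, hB2⟩ : ∃ B ∈ A, B.2 = -h2 := by
    obtain ⟨a, ha, h⟩ := hmin _ IsEquiv.id (-h2 + 1)
    have := hr a ha
    exact ⟨a, ha, by rcases h with h | h <;> omega⟩
  obtain ⟨k, c, d, hcd⟩ := section_gap hA 0 hB hT (by omega) (by omega)
  obtain ⟨k', c', d', hcd'⟩ := section_gap hA 1 hB hT (by omega) (by omega)
  have hg := mkEquiv 1 (-(k' - k)) 0 1 (-k) 0 (by norm_num)
  refine InList.of_image hg ?_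
  have hb : ∀ b ∈ A.image (fun a => (1 * a.1 + -(k' - k) * a.2 + 2 * -k, 0 * a.1 + 1 * a.2 + 2 * 0)),
      ∃ a ∈ A, b.1 = a.1 - (k' - k) * a.2 - 2 * k ∧ b.2 = a.2 := by
    intro b hb
    rw [Finset.mem_image] at hb
    obtain ⟨a, ha, rfl⟩ := hb
    exact ⟨a, ha, by simp only; ring, by simp only; ring⟩
  refine wide_core hh1 hh2 ?_ (Finset.mem_image_of_mem _ hT) (by simp only; rw [hT2]; ring)
    (Finset.mem_image_of_mem _ hB) (by simp only; rw [hB2]; ring)
    (lvl_of_real (n := 0) (c := c - (k' - k)) (d := d - (k' - k)) ?_)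
    (lvl_of_real (n := 2) (c := c' - (k' - k)) (d := d' - (k' - k)) ?_) ?_
  · intro b hb'
    obtain ⟨a, ha, e1, e2⟩ := hb b hb'
    rw [e2]
    exact hr a ha
  · intro b hb'
    obtain ⟨a, ha, e1, e2⟩ := hb b hb'
    have h := hcd a ha
    rw [e1, e2]
    push_cast at h ⊢
    constructor <;> linarith [h.1, h.2]
  · intro b hb'
    obtain ⟨a, ha, e1, e2⟩ := hb b hb'
    have h := hcd' a ha
    rw [e1, e2]
    push_cast at h ⊢
    constructor <;> linarith [h.1, h.2]
  · intro g hg' x₀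
    obtain ⟨a, ha, h⟩ := hmin _ (hg'.comp hg) x₀
    exact ⟨_, Finset.mem_image_of_mem _ ha, h⟩

theorem classify (hA : NoEven A) : InList A := by
  classical
  have hex : ∃ n : ℕ, ∃ g, IsEquiv g ∧ ∃ y₀ : ℤ, ∀ a ∈ A, y₀ ≤ (g a).2 ∧ (g a).2 ≤ y₀ + n := by
    refine ⟨2 * A.sup (fun a => a.2.natAbs), _, IsEquiv.id, -(A.sup (fun a => a.2.natAbs) : ℕ), ?_⟩
    intro a ha
    have : a.2.natAbs ≤ A.sup (fun a => a.2.natAbs) := Finset.le_sup (f := fun a : ℤ × ℤ => a.2.natAbs) ha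
    push_cast
    omega
  obtain ⟨g, hg, y₀, hy⟩ := Nat.find_spec hex
  have hfm : ∀ m : ℕ, m < Nat.find hex → ∀ h, IsEquiv h → ∀ x₀ : ℤ,
      ∃ a ∈ A, (h a).2 < x₀ ∨ x₀ + m < (h a).2 := by
    intro m hm h hh x₀
    by_contra hcon
    push Not at hcon
    exact Nat.find_min hex hm ⟨h, hh, x₀, fun a ha => ⟨(hcon a ha).1, (hcon a ha).2⟩⟩
  generalize Nat.find hex = n at hy hfm
  -- translate
  have key : ∀ j : ℤ, (∀ C : Finset (ℤ × ℤ), NoEven C →
      (∀ c ∈ C, y₀ - 2 * j ≤ c.2 ∧ c.2 ≤ y₀ - 2 * j + n) →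
      (∀ m : ℕ, m < n → ∀ h, IsEquiv h → ∀ x₀ : ℤ, ∃ c ∈ C, (h c).2 < x₀ ∨ x₀ + m < (h c).2) →
      InList C) → InList A := by
    intro j hj
    have hk := (mkEquiv 1 0 0 1 0 (-j) (by norm_num)).comp hg
    refine InList.of_image hk (hj _ (hA.image hk) ?_ ?_)
    · intro c hc
      rw [Finset.mem_image] at hc
      obtain ⟨a, ha, rfl⟩ := hc
      have := hy a ha
      simp only [Function.comp_apply]
      constructor <;> linarith [this.1, this.2]
    · intro m hm h hh x₀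
      obtain ⟨a, ha, h'⟩ := hfm m hm _ (hh.comp hk) x₀
      exact ⟨_, Finset.mem_image_of_mem _ ha, h'⟩
  rcases Int.even_or_odd' y₀ with ⟨j, hj | hj⟩
  · rcases le_or_gt n 4 with hn | hn
    · refine key j fun C hC hr _ => narrow hC fun c hc => ?_
      have := hr c hc
      omega
    · refine key (j + 1) fun C hC hr hm => wide hC (h1 := (n : ℤ) - 4) (h2 := 2) (by omega) (by omega)
        (fun c hc => ?_) (fun h hh x₀ => ?_)
      · have := hr c hc
        omega
      · obtain ⟨c, hc, h'⟩ := hm (n - 1) (by omega) h hh x₀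
        refine ⟨c, hc, ?_⟩
        rw [Nat.cast_sub (by omega)] at h'
        rcases h' with h' | h'
        · exact Or.inl h'
        · right
          push_cast at h'
          linarith
  · rcases le_or_gt n 3 with hn | hn
    · refine key j fun C hC hr _ => narrow hC fun c hc => ?_
      have := hr c hc
      omega
    · refine key (j + 1) fun C hC hr hm => wide hC (h1 := (n : ℤ) - 3) (h2 := 1) (by omega) (by omega)
        (fun c hc => ?_) (fun h hh x₀ => ?_)
      · have := hr c hc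
        omega
      · obtain ⟨c, hc, h'⟩ := hm (n - 1) (by omega) h hh x₀
        refine ⟨c, hc, ?_⟩
        rw [Nat.cast_sub (by omega)] at h'
        rcases h' with h' | h'
        · exact Or.inl h'
        · right
          push_cast at h'
          linarith

end

/-! ## The Newton polygon -/

/-- `A` has points strictly on both sides of every line through `v`. -/
def Inside (A : Finset (ℤ × ℤ)) (v : ℝ × ℝ) : Prop :=
  ∀ α β : ℝ, (α ≠ 0 ∨ β ≠ 0) → ∃ a ∈ A, 0 < α * ((a.1 : ℝ) - v.1) + β * ((a.2 : ℝ) - v.2)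

section

variable {A : Finset (ℤ × ℤ)}

lemma inside_of_mem_interior {v : ℝ × ℝ} (hv : v ∈ interior (newton A)) : Inside A v := by
  intro α β hne
  by_contra hcon
  push Not at hcon
  have hsub : newton A ⊆ {w : ℝ × ℝ | α * w.1 + β * w.2 ≤ α * v.1 + β * v.2} := by
    unfold newton
    refine convexHull_min ?_ ?_
    · rintro _ ⟨a, ha, rfl⟩
      have := hcon a ha
      simp only [Set.mem_ofPred_eq]
      linarith
    · intro x hx y hy s t hs ht hst
      simp only [Set.mem_ofPred_eq, Prod.fst_add, Prod.snd_add, Prod.smul_fst, Prod.smul_snd,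
        smul_eq_mul] at hx hy ⊢
      have h1 := mul_le_mul_of_nonneg_left hx hs
      have h2 := mul_le_mul_of_nonneg_left hy ht
      have h3 : s * (α * v.1 + β * v.2) + t * (α * v.1 + β * v.2) = α * v.1 + β * v.2 := by
        rw [← add_mul, hst, one_mul]
      linarith
  have hcont : Continuous fun t : ℝ => v + t • ((α, β) : ℝ × ℝ) := by fun_prop
  have hopen : IsOpen ((fun t : ℝ => v + t • ((α, β) : ℝ × ℝ)) ⁻¹' interior (newton A)) :=
    isOpen_interior.preimage hcont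
  have h0 : (0 : ℝ) ∈ (fun t : ℝ => v + t • ((α, β) : ℝ × ℝ)) ⁻¹' interior (newton A) := by
    have e : v + (0 : ℝ) • ((α, β) : ℝ × ℝ) = v := by ext <;> simp
    rw [Set.mem_preimage, e]
    exact hv
  obtain ⟨ε, hε, hball⟩ := Metric.isOpen_iff.mp hopen 0 h0
  have h1 : (ε / 2 : ℝ) ∈ Metric.ball (0 : ℝ) ε := by
    rw [Metric.mem_ball, dist_zero_right, Real.norm_of_nonneg (by positivity)]
    linarith
  have h2 := hsub (interior_subset (hball h1))
  simp only [Set.mem_ofPred_eq, Prod.fst_add, Prod.snd_add, Prod.smul_fst, Prod.smul_snd,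
    smul_eq_mul] at h2
  have h3 : 0 < α ^ 2 + β ^ 2 := by
    rcases hne with h | h
    · have := sq_pos_of_ne_zero h
      nlinarith [sq_nonneg β]
    · have := sq_pos_of_ne_zero h
      nlinarith [sq_nonneg α]
  nlinarith

lemma apply_eq (f : (ℝ × ℝ) →ₗ[ℝ] ℝ) (w : ℝ × ℝ) : f w = f (1, 0) * w.1 + f (0, 1) * w.2 := by
  have h : w = w.1 • ((1, 0) : ℝ × ℝ) + w.2 • ((0, 1) : ℝ × ℝ) := by
    ext <;> simp
  conv_lhs => rw [h]
  rw [map_add, map_smul, map_smul, smul_eq_mul, smul_eq_mul]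
  ring

lemma separate {v : ℝ × ℝ} (hA : A.Nonempty) (hv : v ∉ interior (newton A)) :
    ∃ α β : ℝ, (α ≠ 0 ∨ β ≠ 0) ∧ ∀ a ∈ A, α * ((a.1 : ℝ) - v.1) + β * ((a.2 : ℝ) - v.2) ≤ 0 := by
  have hconv : Convex ℝ (newton A) := convex_convexHull _ _
  have hmem : ∀ a ∈ A, ((a.1 : ℝ), (a.2 : ℝ)) ∈ newton A := fun a ha =>
    subset_convexHull _ _ ⟨a, ha, rfl⟩
  by_cases hint : (interior (newton A)).Nonempty
  · obtain ⟨f, hf⟩ := geometric_hahn_banach_open_point hconv.interior isOpen_interior hv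
    have hcl : ∀ w ∈ newton A, f w ≤ f v := by
      intro w hw
      have h1 : w ∈ closure (interior (newton A)) := by
        rw [hconv.closure_interior_eq_closure_of_nonempty_interior hint]
        exact subset_closure hw
      have h2 : closure (interior (newton A)) ⊆ {w | f w ≤ f v} :=
        closure_minimal (fun w hw => (hf w hw).le) (isClosed_le f.continuous continuous_const)
      exact h2 h1
    have happ : ∀ w : ℝ × ℝ, f w = f (1, 0) * w.1 + f (0, 1) * w.2 := fun w =>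
      apply_eq f.toLinearMap w
    refine ⟨f (1, 0), f (0, 1), ?_, fun a ha => ?_⟩
    · by_contra hcon
      rw [not_or, not_not, not_not] at hcon
      obtain ⟨w, hw⟩ := hint
      have h1 := hf w hw
      rw [happ w, happ v, hcon.1, hcon.2] at h1
      simp at h1
    · have h1 := hcl _ (hmem a ha)
      rw [happ ((a.1 : ℝ), (a.2 : ℝ)), happ v] at h1
      simp only at h1
      linarith
  · obtain ⟨a₀, ha₀⟩ := hA
    have hS : ((fun a : ℤ × ℤ => ((a.1 : ℝ), (a.2 : ℝ))) '' (A : Set (ℤ × ℤ))).Nonempty :=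
      ⟨_, a₀, ha₀, rfl⟩
    unfold newton at hint
    rw [interior_convexHull_nonempty_iff_affineSpan_eq_top,
      AffineSubspace.affineSpan_eq_top_iff_vectorSpan_eq_top_of_nonempty ℝ _ _ hS] at hint
    obtain ⟨f, hf0, hf⟩ := Submodule.exists_le_ker_of_lt_top _ (lt_top_iff_ne_top.mpr hint)
    have hconst : ∀ a ∈ A, f ((a.1 : ℝ), (a.2 : ℝ)) = f ((a₀.1 : ℝ), (a₀.2 : ℝ)) := by
      intro a ha
      have h1 := hf (vsub_mem_vectorSpan ℝ (s := (fun a : ℤ × ℤ => ((a.1 : ℝ), (a.2 : ℝ))) ''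
        (A : Set (ℤ × ℤ))) ⟨a, ha, rfl⟩ ⟨a₀, ha₀, rfl⟩)
      rw [LinearMap.mem_ker, vsub_eq_sub, map_sub] at h1
      exact sub_eq_zero.mp h1
    have hne : f (1, 0) ≠ 0 ∨ f (0, 1) ≠ 0 := by
      by_contra hcon
      rw [not_or, not_not, not_not] at hcon
      apply hf0
      refine LinearMap.ext fun w => ?_
      rw [apply_eq f w, hcon.1, hcon.2]
      simp
    rcases le_total (f ((a₀.1 : ℝ), (a₀.2 : ℝ))) (f v) with h | h
    · refine ⟨f (1, 0), f (0, 1), hne, fun a ha => ?_⟩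
      have h1 := hconst a ha
      rw [← h1, apply_eq f v, apply_eq f ((a.1 : ℝ), (a.2 : ℝ))] at h
      simp only at h
      linarith
    · refine ⟨-f (1, 0), -f (0, 1), ?_, fun a ha => ?_⟩
      · rcases hne with h' | h'
        · exact Or.inl (neg_ne_zero.mpr h')
        · exact Or.inr (neg_ne_zero.mpr h')
      · have h1 := hconst a ha
        rw [← h1, apply_eq f v, apply_eq f ((a.1 : ℝ), (a.2 : ℝ))] at h
        simp only at h
        linarith

lemma noEven (hA : A.Nonempty) (h : NoEvenPoint A) : NoEven A := fun i j => separate hA (h i j)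

lemma inList_noEvenPoint (h : InList A) : NoEvenPoint A := by
  intro i j hij
  have hin := inside_of_mem_interior hij
  obtain ⟨g, ⟨p, q, r, s, u, v, hd, hg⟩, h⟩ := h
  set x : ℤ := p * i + q * j + u with hx
  set y : ℤ := r * i + s * j + v with hy
  have key : ∀ l n : ℤ, (l ≠ 0 ∨ n ≠ 0) → ∃ a ∈ A, 0 < l * ((g a).1 - 2 * x) + n * ((g a).2 - 2 * y) := by
    intro l n hln
    obtain ⟨a, ha, h1⟩ := hin (l * p + n * r) (l * q + n * s) (by
      by_contra hcon
      rw [not_or, not_not, not_not] at hcon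
      obtain ⟨c1, c2⟩ := hcon
      have c1' : l * p + n * r = 0 := by exact_mod_cast c1
      have c2' : l * q + n * s = 0 := by exact_mod_cast c2
      have hdd : (p * s - q * r) * (p * s - q * r) = 1 := by rw [← hd, sq]
      have c3 : l = 0 := by
        linear_combination (-l) * hdd + (p * s - q * r) * (s * c1' - r * c2')
      have c4 : n = 0 := by
        linear_combination (-n) * hdd + (p * s - q * r) * (-q * c1' + p * c2')
      rcases hln with h' | h'
      · exact h' c3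
      · exact h' c4)
    refine ⟨a, ha, ?_⟩
    rw [hg a]
    have h2 : ((l * ((p * a.1 + q * a.2 + 2 * u) - 2 * x) + n * ((r * a.1 + s * a.2 + 2 * v) - 2 * y) :
        ℤ) : ℝ) = (l * p + n * r) * ((a.1 : ℝ) - 2 * i) + (l * q + n * s) * ((a.2 : ℝ) - 2 * j) := by
      rw [hx, hy]
      push_cast
      ring
    have h3 : (0 : ℝ) < ((l * ((p * a.1 + q * a.2 + 2 * u) - 2 * x) +
        n * ((r * a.1 + s * a.2 + 2 * v) - 2 * y) : ℤ) : ℝ) := by
      rw [h2]
      exact h1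
    exact_mod_cast h3
  rcases h with h | h | h | h | h
  · obtain ⟨a, ha, h1⟩ := key 0 1 (by omega)
    obtain ⟨b, hb, h2⟩ := key 0 (-1) (by omega)
    have h3 := h a ha
    have h4 := h b hb
    unfold Strip at h3 h4
    omega
  · obtain ⟨a, ha, h1⟩ := key (-1) 0 (by omega)
    obtain ⟨b, hb, h2⟩ := key 0 (-1) (by omega)
    obtain ⟨c, hc, h5⟩ := key 1 1 (by omega)
    have h3 := h a ha
    have h4 := h b hb
    have h6 := h c hc
    unfold T4 at h3 h4 h6
    omega
  · obtain ⟨a, ha, h1⟩ := key (-1) 0 (by omega)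
    obtain ⟨b, hb, h2⟩ := key 0 (-1) (by omega)
    obtain ⟨c, hc, h5⟩ := key 1 2 (by omega)
    have h3 := h a ha
    have h4 := h b hb
    have h6 := h c hc
    unfold T6 at h3 h4 h6
    omega
  · obtain ⟨a, ha, h1⟩ := key (-1) 0 (by omega)
    obtain ⟨b, hb, h2⟩ := key 1 2 (by omega)
    obtain ⟨c, hc, h5⟩ := key 1 (-2) (by omega)
    have h3 := h a ha
    have h4 := h b hb
    have h6 := h c hc
    unfold T8 at h3 h4 h6
    omega
  · obtain ⟨a, ha, h1⟩ := key 1 1 (by omega)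
    obtain ⟨b, hb, h2⟩ := key (-1) (-1) (by omega)
    obtain ⟨c, hc, h5⟩ := key 1 (-1) (by omega)
    obtain ⟨d, hd', h7⟩ := key (-1) 1 (by omega)
    have hD : ∀ w : ℤ × ℤ, Dm w → 0 ≤ w.1 + w.2 ∧ w.1 + w.2 ≤ 4 ∧ -2 ≤ w.1 - w.2 ∧ w.1 - w.2 ≤ 2 := by
      intro w hw
      unfold Dm at hw
      have e1 := le_abs_self (w.1 - 1)
      have e2 := neg_abs_le (w.1 - 1)
      have e3 := le_abs_self (w.2 - 1)
      have e4 := neg_abs_le (w.2 - 1)
      refine ⟨?_, ?_, ?_, ?_⟩ <;> linarith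
    have h3 := hD _ (h a ha)
    have h4 := hD _ (h b hb)
    have h6 := hD _ (h c hc)
    have h8 := hD _ (h d hd')
    omega

lemma zero_mem (h0 : ((0, 0) : ℤ × ℤ) ∈ A) : (0 : ℝ × ℝ) ∈ newton A :=
  subset_convexHull _ _ ⟨(0, 0), h0, by ext <;> simp⟩

lemma mem_forms {m k : ℕ} (hm : 0 < m) (hk : 0 < k) (a : ℤ × ℤ) :
    a ∈ forms A m k ↔ ((m : ℝ) / k) • (((a.1 : ℝ), (a.2 : ℝ)) : ℝ × ℝ) ∈ interior (newton A) := by
  have hk' : (0 : ℝ) < k := by exact_mod_cast hk
  have hm' : (0 : ℝ) < m := by exact_mod_cast hm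
  have hc : (k : ℝ) / m ≠ 0 := by positivity
  unfold forms
  rw [Set.mem_ofPred_eq, interior_smul₀ hc, Set.mem_smul_set_iff_inv_smul_mem₀ hc, inv_div]

lemma chiral_of_noEvenPoint (h0 : ((0, 0) : ℤ × ℤ) ∈ A) (h : NoEvenPoint A) (m : ℕ) :
    IsChiral A m := by
  intro k l hk hl hkl
  have key : ∀ k l : ℕ, 0 < k → k ≤ l → k + l = m → h20 A m k = 0 := by
    intro k l hk hle hkl
    unfold h20
    rw [Set.encard_eq_zero, Set.eq_empty_iff_forall_notMem]
    intro a ha
    rw [mem_forms (by omega) hk] at ha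
    have hk' : (0 : ℝ) < k := by exact_mod_cast hk
    have hm' : (0 : ℝ) < m := by exact_mod_cast (by omega : 0 < m)
    have hlt : 2 * (k : ℝ) / m ≤ 1 := by
      rw [div_le_one hm']
      exact_mod_cast (by omega : 2 * k ≤ m)
    have h1 := (convex_convexHull ℝ _ : Convex ℝ (newton A)).combo_interior_self_mem_interior ha
      (zero_mem h0) (a := 2 * (k : ℝ) / m) (b := 1 - 2 * (k : ℝ) / m) (by positivity) (by linarith)
      (by ring)
    apply h a.1 a.2
    have h2 : (2 * (k : ℝ) / m) • ((m : ℝ) / k) • (((a.1 : ℝ), (a.2 : ℝ)) : ℝ × ℝ) +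
        (1 - 2 * (k : ℝ) / m) • (0 : ℝ × ℝ) = ((2 * a.1 : ℝ), (2 * a.2 : ℝ)) := by
      rw [smul_zero, add_zero, smul_smul]
      have : 2 * (k : ℝ) / m * ((m : ℝ) / k) = 2 := by field_simp
      rw [this]
      ext <;> simp
    rw [h2] at h1
    exact h1
  constructor
  · intro he
    rw [key k l hk he.le hkl]
    exact zero_le
  · intro hne
    rcases Nat.lt_or_gt_of_ne hne with h1 | h1
    · exact Or.inl (key k l hk h1.le hkl)
    · exact Or.inr (key l k hl h1.le (by omega))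

lemma noEvenPoint_of_chiral (h : ∀ m, IsChiral A m) : NoEvenPoint A := by
  intro i j hij
  have hcont : Continuous fun t : ℝ => t • (((i : ℝ), (j : ℝ)) : ℝ × ℝ) := by fun_prop
  have hopen : IsOpen ((fun t : ℝ => t • (((i : ℝ), (j : ℝ)) : ℝ × ℝ)) ⁻¹' interior (newton A)) :=
    isOpen_interior.preimage hcont
  have h2 : (2 : ℝ) ∈ (fun t : ℝ => t • (((i : ℝ), (j : ℝ)) : ℝ × ℝ)) ⁻¹' interior (newton A) := by
    have e : (2 : ℝ) • (((i : ℝ), (j : ℝ)) : ℝ × ℝ) = ((2 * i : ℝ), (2 * j : ℝ)) := by ext <;> simp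
    rw [Set.mem_preimage, e]
    exact hij
  obtain ⟨ε, hε, hball⟩ := Metric.isOpen_iff.mp hopen 2 h2
  obtain ⟨N, hN⟩ := exists_nat_gt (1 / ε)
  have hN0 : (0 : ℝ) < N := lt_trans (by positivity) hN
  have hN1 : 0 < N := by exact_mod_cast hN0
  have hNe : 1 / (N : ℝ) < ε := by
    rw [div_lt_iff₀ hε] at hN
    rw [div_lt_iff₀ hN0]
    linarith
  have hc := (h (2 * N + 1) N (N + 1) hN1 (by omega) (by omega)).2 (by omega)
  have m1 : ((i, j) : ℤ × ℤ) ∈ forms A (2 * N + 1) N := by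
    rw [mem_forms (by omega) hN1]
    suffices hb : (((2 * N + 1 : ℕ) : ℝ) / N) ∈ Metric.ball (2 : ℝ) ε from hball hb
    rw [Metric.mem_ball, Real.dist_eq]
    have e : ((2 * N + 1 : ℕ) : ℝ) / N - 2 = 1 / N := by
      push_cast
      field_simp
      ring
    rw [e, abs_of_pos (by positivity)]
    exact hNe
  have m2 : ((i, j) : ℤ × ℤ) ∈ forms A (2 * N + 1) (N + 1) := by
    rw [mem_forms (by omega) (by omega)]
    suffices hb : (((2 * N + 1 : ℕ) : ℝ) / ((N + 1 : ℕ) : ℝ)) ∈ Metric.ball (2 : ℝ) ε from hball hb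
    rw [Metric.mem_ball, Real.dist_eq]
    have e : ((2 * N + 1 : ℕ) : ℝ) / ((N + 1 : ℕ) : ℝ) - 2 = -(1 / ((N : ℝ) + 1)) := by
      push_cast
      field_simp
      ring
    rw [e, abs_neg, abs_of_pos (by positivity)]
    refine lt_of_le_of_lt ?_ hNe
    gcongr
    linarith
  unfold h20 at hc
  rcases hc with hc | hc
  · rw [Set.encard_eq_zero] at hc
    rw [hc] at m1
    exact m1
  · rw [Set.encard_eq_zero] at hc
    rw [hc] at m2
    exact m2

/-- **The surfaces which are chiral for all `m`.** -/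
theorem allM (h0 : ((0, 0) : ℤ × ℤ) ∈ A) :
    ((∀ m, IsChiral A m) ↔ NoEvenPoint A) ∧ ((∀ m, IsChiral A m) ↔ InList A) := by
  have e1 : (∀ m, IsChiral A m) ↔ NoEvenPoint A :=
    ⟨noEvenPoint_of_chiral, fun h m => chiral_of_noEvenPoint h0 h m⟩
  refine ⟨e1, e1.trans ⟨fun h => classify (noEven ⟨_, h0⟩ h), inList_noEvenPoint⟩⟩

end

end Pool.Agent.AllM
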